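import Pool.Agent.J4.H27.BB.Main

/-!
# The conjecture of Beilinson and Bloch for exterior products of divisors: bounds by the rank

For a product `X = C₁ × … × Cₙ` of `n ≥ 2` curves over a number field the exterior products
`a₁ × … × aₙ` of divisors of degree zero are homologically trivial zero-cycles, and their images in
`J^n(X) = Alb(X)`, the product of the Jacobians, are zero. So according to Q1 they are torsion.
We prove this if `n` is large compared with the rank of the divisors.

Let `C` be a curve of genus `g` over an algebraically closed field `k` of characteristic zero, for
instance the field of the algebraic numbers, and let `b_1, …, b_s` be divisors of degree zero on `C`.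
Let `C_1, …, C_n` be curves over `k` and `a_i` a divisor on `C_i` with a positive multiple in the
group generated by the principal divisors and by the images `f_* b_j` under all morphisms
`f : C → C_i`. If `n > ∑ ν_j` then `a_1 × … × a_n` is a torsion element of the Chow group of
zero-cycles of `C_1 × … × C_n`. Here `ν_j` is

* `g`, or
* if `b_j = q - o` is the difference of two points, the degree of any effective divisor `E` such that
  `q + E - (deg E + 1) o` is a torsion class: for example, `deg E + 1` may be a non-gap of `o` (the
  pole order of a function with no other poles than `o`), so `ν_j = 1` if `o` is a Weierstrass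
  point of a hyperelliptic curve.

Examples. (1) Let `C` be defined over the number field `F`, and let `r` be the rank of the Mordell-Weil
group `J(F)`. For all `n > g r` the exterior products of the `F`-rational divisors of degree zero are
torsion in `CH_0(C^n)`; instead of `r` one can take the number of generators of `J(F) ⊗ ℚ` as a module
over the group ring of the automorphism group of `C`. (2) The same holds on all products
`C_1 × … × C_n` of curves `C_i` over `F` which are images of `C`, since the push-forward
`J(C)(F) ⊗ ℚ → J(C_i)(F) ⊗ ℚ` is surjective. (3) For isogenous elliptic curves `C_i` over `F` one can
take for `r` the dimension of `C_1(F) ⊗ ℚ` over the field of endomorphisms. (4) For a hyperelliptic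
curve and `s` points `q_j` such that the classes of `q_j - o` generate `J(F) ⊗ ℚ` one has `n > s`.

Proof. (a) The exterior product of `g + 1` equal divisors is torsion: an effective divisor of
degree `g + 1` moves in a pencil to a divisor which contains a given point (Riemann), and the
members of a pencil give rationally equivalent zero-cycles on `C^(g + 1)`. (b) Let
`N (q_0 + … + q_ν - (ν + 1) o)` be the divisor of a function, `q = q_0`, and `a_t = q_t - o`. The
diagonal embeddings of `C` into powers of `C` show that `∑_t a_t^S`, the sum of the exterior products
of equal factors at the positions in `S`, is torsion for all sets `S ≠ ∅` of positions (and arbitrary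
other factors). An inclusion-exclusion argument over the assignments of different `t` to the
positions, which do not exist if there are `ν + 1` positions and `t = 0` is excluded, shows that
`(ν + 1)! a_0^(ν + 1)` is torsion. (c) The pigeonhole principle.
-/

set_option autoImplicit false

open FF

namespace Pool.Agent.Results.MP_e28333_ag.RankBound

open Pool.Agent.J4.H17.ZC Pool.Agent.J4.H27.BB

/-- The exterior product of `n > ∑ ν_j` divisors on the curves `C_i` (with function fields `K' i`),
which have positive multiples in the groups generated by the principal divisors and by the images
of the divisors `b j` on the curve `C` (with function field `K`), is in the kernel of the Albanese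
map (its images in all the curves `C_i` are zero) and is a torsion element of the Chow group. -/
theorem result {k : Type} [Field k] [IsAlgClosed k] [CharZero k] (K : Type) [Field K]
    [Algebra k K] [IsFF k K] (g : ℕ) (hg : HasGenus k K g) (s : ℕ)
    (b : Fin s → Place k K →₀ ℤ) (ν : Fin s → ℕ) (hb : ∀ j, NilpBound k K g (b j) (ν j))
    (n : ℕ) (hn : ∑ j, ν j < n) (K' : Fin n → Type) [∀ i, Field (K' i)]
    [∀ i, Algebra k (K' i)] [∀ i, IsFF k (K' i)] (a : ∀ i, Place k (K' i) →₀ ℤ)
    (ha : ∀ i, ∃ N : ℕ, 0 < N ∧ N • a i ∈ images k (K' i) b) :
    (2 ≤ n → ∀ i, Finsupp.mapDomain (fun x : ∀ i, Place k (K' i) => x i) (prodCycle a) = 0) ∧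
    ∃ N : ℕ, 0 < N ∧ N • prodCycle a ∈ RatEq (varPi fun i => curve k (K' i)) :=
  main_thm hg b ν hb hn K' a ha

end Pool.Agent.Results.MP_e28333_ag.RankBound
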